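import Pool.Agent.V8H94.TV.Defs

/-!
# Slopes, and Tate classes which are products of classes of degree one on abelian varieties
-/

set_option autoImplicit false

namespace Pool.Agent.V8H94.TS

open Pool.Agent.V8H94.TC Pool.Agent.V8H94.TV
open Pool.Agent.V8H94.CT (AbVar)

/-- The slopes of `H ^ i (X)` are at least `c`: the Frobenius eigenvalues over the field with
`q = p ^ m X` elements are multiples of `q ^ c` in the ring of algebraic integers. -/
def SlopesAtLeast (p : ℕ) {Ω : Type} [Field Ω] (T : Varieties Ω) (X : T.V) (i c : ℕ) : Prop :=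
  ∀ x ∈ T.gr X i, ∀ a : Ω, x ≠ 0 → frob T X 1 x = a • x → IsIntegral ℤ (a / (p : Ω) ^ (T.m X * c))

/-- The product of elements of a vector space in the exterior algebra. -/
noncomputable def extProd {K H : Type} [Field K] [AddCommGroup H] [Module K H] {j : ℕ}
    (v : Fin j → H) : ExteriorAlgebra K H :=
  ExteriorAlgebra.ιMulti K j v

variable {p : ℕ} [Fact p.Prime] {Ω : Type} [Field Ω] [CharZero Ω]

/-- The class `b` on `B` is the product of `j` classes `v k` of degree one on different factors of `B`: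
there are endomorphisms `e` of `B` with `e (v l) = v l` and `e (v k) = 0` for `k ≠ l`. The class `b`
is algebraic if and only if the class `v 0 ⊗ v 1 ⊗ ...` in `H ^ 1 (B) ⊗ ... ⊗ H ^ 1 (B)` on `B ^ j` is
algebraic. -/
def IsSplit (B : AbVar p Ω) (j : ℕ) (b : Coh B) : Prop :=
  ∃ v : Fin j → B.H, b = extProd v ∧
    ∀ l, ∃ e : B.H →ₗ[Ω] B.H, IsHom B B e ∧ ∀ k, e (v k) = if k = l then v k else 0

/-- The strong Tate conjecture for the classes in `H ^ i (X) ⊗ H ^ 1 (B₁) ⊗ ... ⊗ H ^ 1 (B_j)` of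
codimension `r`, for all abelian varieties `B₁, ..., B_j`. -/
def TateInDegrees {T : Varieties Ω} (Z : Cycles p T) (X : T.V) (i j r : ℕ) : Prop :=
  ∀ (B : AbVar p Ω), ∀ x ∈ T.gr X i, ∀ b, IsSplit B j b →
    IsGenTate T X B r (times T X B x b) → times T X B x b ∈ Z.C X B

/-- The Tate conjecture for the classes in `H ^ 1 (B₁) ⊗ H ^ 1 (B₂) ⊗ H ^ 1 (B₃) ⊗ H ^ 1 (B₄)`, for all
abelian varieties `B₁, B₂, B₃, B₄`. -/
def TateInDegreesOne (S : CycleSystem p Ω) : Prop :=
  ∀ (B : AbVar p Ω) (b : Coh B), IsSplit B 4 b → IsTate B 2 b → b ∈ S.C B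

/-- The class `t` on `X × A` is a Tate class of codimension `r` over a finite extension of the fields of
definition: `F t = q ^ r t`, where `F` is the Frobenius endomorphism of a field with
`q = p ^ (m X * s)` elements. -/
def IsTate₂ (T : Varieties Ω) (X : T.V) (A : AbVar p Ω) (r : ℕ) (t : Coh₂ T X A) : Prop :=
  ∃ s s' : ℕ, 0 < s ∧ 0 < s' ∧ T.m X * s = A.m * s' ∧
    frob₂ T X A s s' t = (p : Ω) ^ (T.m X * s * r) • t

/-- The Tate conjecture for `X × A` in all codimensions. -/
def Tate₂ {T : Varieties Ω} (Z : Cycles p T) (X : T.V) (A : AbVar p Ω) : Prop :=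
  ∀ (r : ℕ) (t : Coh₂ T X A), IsTate₂ T X A r t → t ∈ Z.C X A

/-- The Frobenius endomorphism of `X` is semisimple. -/
def IsSemisimple (T : Varieties Ω) (X : T.V) : Prop :=
  Submodule.span Ω {x : T.H X | ∃ a : Ω, frob T X 1 x = a • x} = ⊤

/-- Generalised Tate classes which belong to the system are Tate classes. -/
def AreTate {T : Varieties Ω} (Z : Cycles p T) : Prop :=
  ∀ (X : T.V) (A : AbVar p Ω) (r : ℕ), ∀ t ∈ Z.C X A, IsGenTate T X A r t → IsTate₂ T X A r t

end Pool.Agent.V8H94.TS
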