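import Pool.Agent.V8H94.TS.Defs
import Pool.Agent.V8H94.TW.Dom
import Pool.Agent.V8H94.VT.Abel
import Pool.Agent.V8H94.VT.Mem

/-!
# Products of classes of degree one on different factors
-/

set_option autoImplicit false

namespace Pool.Agent.V8H94.TS

open Module Polynomial TensorProduct
open Pool.Agent.V8H94.CT Pool.Agent.V8H94.VT

variable {p : ℕ} [Fact p.Prime] {Ω : Type} [Field Ω] [CharZero Ω]

theorem exists_split [IsAlgClosed Ω] (A : AbVar p Ω) {N : ℕ} (v : Fin N → A.H) (a : Fin N → Ω)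
    (hv : ∀ i, A.F (v i) = a i • v i) (h0 : ∀ i, v i ≠ 0) :
    ∃ (D : AbVar p Ω) (h : D.H →ₗ[Ω] A.H) (u : Fin N → D.H), D.m = A.m ∧ TC.IsHom A D h ∧
      (∀ i, D.F (u i) = a i • u i) ∧ (∀ i, h (u i) = v i) ∧
      IsSplit D N (extProd u : ExteriorAlgebra Ω D.H) := by
  have hw : ∀ i, IsWeil p A.m (a i) := fun i => isWeil_of_eigen A (h0 i) (hv i)
  obtain ⟨D, u, hDm, _, hu, hD⟩ := exists_universal' (p := p) (k := A.m)
    A.m_pos (W := {w : Ω | IsWeil p A.m w})
    (fun w hw b hb => isWeil_root hw hb) a (fun i => ⟨hw i, hw i⟩)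
  obtain ⟨h, hh, hhu⟩ := hD A 1 1 v (by
    intro i
    rw [pow_one, pow_one, hv])
  refine ⟨D, h, u, hDm, (TC.isHom_iff A D h).2 ⟨1, 1, one_pos, one_pos, by rw [hDm], hh⟩, hu, hhu,
    u, rfl, fun l => ?_⟩
  obtain ⟨e, he, heu⟩ := hD D 1 1 (fun k => if k = l then u k else 0) (by
    intro k
    rw [pow_one, pow_one]
    split_ifs
    · exact hu k
    · rw [map_zero, smul_zero])
  exact ⟨e, (TC.isHom_iff D D e).2 ⟨1, 1, one_pos, one_pos, rfl, he⟩, heu⟩

/-- The Tate conjecture for the split classes, on `X × A`. -/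
def TateSplit {T : Cohomology p Ω} (Z : Cycles T) (X : T.V) (i j r : ℕ) : Prop :=
  ∀ (B : AbVar p Ω), ∀ x ∈ T.gr X i, ∀ b : TC.Coh B, IsSplit B j b →
    IsGenTate T X B r (times T X B x b) → times T X B x b ∈ Z.C X B

theorem mem_of_split [IsAlgClosed Ω] {T : Cohomology p Ω} (Z : Cycles T) (X : T.V) {i j r : ℕ}
    (h : TateSplit Z X i j r) {x : T.H X} (hx : x ∈ T.gr X i) {a : Ω} {k : ℕ}
    (hk : ((T.F X - a • LinearMap.id) ^ k : T.H X →ₗ[Ω] T.H X) x = 0) (B : AbVar p Ω)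
    (Y : List (Ω × B.H)) (hY : ∀ y ∈ Y, B.F y.2 = y.1 • y.2) (hY0 : ∀ y ∈ Y, y.2 ≠ 0)
    (hl : Y.length = j) {t e : ℕ} (ht : 0 < t) (he : 0 < e) (hBm : B.m = T.m X * t)
    (hrel : (a ^ t * (Y.map Prod.fst).prod) ^ e = ((p : Ω) ^ (T.m X * t * r)) ^ e) :
    times T X B x (wedge (Y.map Prod.snd) : ExteriorAlgebra Ω B.H) ∈ Z.C X B := by
  subst hl
  obtain ⟨D, f, u, hDm, hf, hu, hfu, hs⟩ := exists_split B (fun i => (Y.get i).2)
    (fun i => (Y.get i).1) (fun i => hY _ (List.get_mem _ _)) (fun i => hY0 _ (List.get_mem _ _))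
  let U : List (Ω × D.H) := List.ofFn fun i => ((Y.get i).1, u i)
  have hU : ∀ y ∈ U, D.F y.2 = y.1 • y.2 := by
    intro y hy
    obtain ⟨i, rfl⟩ := (List.mem_ofFn' _ y).1 hy
    exact hu i
  have hU1 : U.map Prod.fst = Y.map Prod.fst := by
    simp only [U, List.map_ofFn]
    apply List.ext_get
    · simp
    · intro k h1 h2
      simp
  have hU2 : U.map Prod.snd = List.ofFn u := by
    simp only [U, List.map_ofFn]
    rfl
  have hU3 : (U.map Prod.snd).map f = Y.map Prod.snd := by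
    rw [hU2, List.map_ofFn]
    apply List.ext_get
    · simp
    · intro k h1 h2
      simp only [List.get_ofFn, Function.comp_apply, hfu]
      simp
  have hw : (wedge (U.map Prod.snd) : ExteriorAlgebra Ω D.H) = extProd u := by
    rw [hU2]
    exact ofFn_wedge u
  have h1 : times T X D x (wedge (U.map Prod.snd) : ExteriorAlgebra Ω D.H) ∈ Z.C X D := by
    refine h D x hx _ (by rw [hw]; exact hs) ?_
    refine ⟨t * e, e, k, Nat.mul_pos ht he, he, by rw [hDm, hBm]; ring, ?_⟩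
    let K : ExteriorAlgebra Ω D.H →ₗ[Ω] ExteriorAlgebra Ω D.H :=
      (ExteriorAlgebra.map (D.F ^ e)).toLinearMap
    have h2 : K (wedge (U.map Prod.snd)) =
        ((U.map Prod.fst).prod ^ e) • wedge (R := Ω) (U.map Prod.snd) :=
      map_pow_wedge_eigen D.F U hU e
    have h3 := gen_tmul_zero (T.F X ^ (t * e)) K h2 (gen_pow (T.F X) (t * e) hk)
    have h4 : a ^ (t * e) * (U.map Prod.fst).prod ^ e = (p : Ω) ^ (T.m X * (t * e) * r) := by
      rw [pow_mul, ← mul_pow, hU1, hrel, ← pow_mul]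
      congr 1
      ring
    rw [h4] at h3
    exact h3
  have h2 : times T X B x (pullLin B D f (wedge (U.map Prod.snd) : ExteriorAlgebra Ω D.H)) ∈
      Z.C X B := by
    have h4 := Z.pull_mem X B D f hf _ h1
    have h5 := mapTimes_times T X D B LinearMap.id (pullLin B D f) x
      (wedge (U.map Prod.snd) : ExteriorAlgebra Ω D.H)
    exact h5 ▸ h4
  have h3 : pullLin B D f (wedge (U.map Prod.snd) : ExteriorAlgebra Ω D.H) =
      (wedge (Y.map Prod.snd) : ExteriorAlgebra Ω B.H) := by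
    refine (map_wedge f (U.map Prod.snd)).trans ?_
    rw [hU3]
  rw [h3] at h2
  exact h2

theorem dom_of_split [IsAlgClosed Ω] {T : Cohomology p Ω} (Z : Cycles T) (X : T.V) {i c : ℕ}
    (hc : 2 * c ≤ i) (h : TateSplit Z X i (i - 2 * c) (i - c)) {x : T.H X} (hx : x ∈ T.gr X i)
    {a : Ω} {k : ℕ} (hk : ((T.F X - a • LinearMap.id) ^ k : T.H X →ₗ[Ω] T.H X) x = 0)
    (ha : IsPure p (T.m X * i) a) (hint : IsIntegral ℤ (a / (p : Ω) ^ (T.m X * c))) :
    IsDom Z X x := by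
  have hp : (p : Ω) ≠ 0 := Nat.cast_ne_zero.2 (Fact.out : p.Prime).ne_zero
  refine ⟨i, k, i - c, a, hx, hk, ha, fun t ht => ?_⟩
  have hm := T.m_pos X
  obtain ⟨w, e, he, hwl, hw, hrel'⟩ := V8H77.VT.exists_complement ht (TW.isPure_div hc ha hint)
  have hrel : (a ^ t * w.prod) ^ e = ((p : Ω) ^ (T.m X * t * (i - c))) ^ e := by
    have e1 : a ^ t * w.prod = (p : Ω) ^ (T.m X * c * t) *
        ((a / (p : Ω) ^ (T.m X * c)) ^ t * w.prod) := by
      rw [div_pow, ← pow_mul, ← mul_assoc, mul_div_cancel₀ _ (pow_ne_zero _ hp)]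
    rw [e1, mul_pow, hrel', ← mul_pow, ← pow_add]
    congr 2
    have e2 : i - c = c + (i - 2 * c) := by omega
    rw [e2]
    ring
  have hmt : 0 < T.m X * t := Nat.mul_pos hm ht
  obtain ⟨B, N, g, b, Y, R, hBm, -, hY, hR, hYw, hP, hN, hprod⟩ :=
    exists_basis_cover (p := p) hmt (W := {y : Ω | IsWeil p (T.m X * t) y})
      (fun y hy z hz => (hy : IsWeil p (T.m X * t) y).isIsotypic.isWeil hz) w
      (fun y hy => ⟨hw y hy, hw y hy⟩)
  have hYl : Y.length = i - 2 * c := by rw [← hwl, ← hYw, List.length_map]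
  refine ⟨B, N, g, e, b, Y, R, hBm, hY, hR, hP, hN, he, by omega, by rw [hYw, hrel], ?_, ?_⟩
  · rw [hYw, hprod, hBm, ← pow_mul]
  · refine mem_of_split Z X h hx hk B Y hY (fun y hy => ?_) hYl ht he hBm (by rw [hYw, hrel])
    have h1 : y.2 ∈ Y.map Prod.snd ++ R.map Prod.snd :=
      List.mem_append_left _ (List.mem_map_of_mem hy)
    obtain ⟨l, hl⟩ := (List.mem_ofFn' _ _).1 (hP.mem_iff.1 h1)
    rw [← hl]
    exact b.ne_zero l

theorem tateHolds_two [IsAlgClosed Ω] {S : TC.CycleSystem p Ω} (h : TateInDegreesOne S)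
    (A : AbVar p Ω) : TC.TateHolds S A 2 := by
  intro x hx
  obtain ⟨hx, s, hs, hT⟩ := hx
  have h1 := mem_span_eigen A.F A.span_eigen (2 * 2) s _ x hx hT
  refine Submodule.span_le.2 ?_ h1
  rintro _ ⟨v, a, hv0, hv, hprod, rfl⟩
  obtain ⟨D, f, u, hDm, hf, hu, hfu, hsplit⟩ := exists_split A v a hv hv0
  let U : List (Ω × D.H) := List.ofFn fun i => (a i, u i)
  have hU : ∀ y ∈ U, D.F y.2 = y.1 • y.2 := by
    intro y hy
    obtain ⟨i, rfl⟩ := (List.mem_ofFn' _ y).1 hy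
    exact hu i
  have hU1 : (U.map Prod.fst).prod = ∏ i, a i := by
    simp only [U, List.map_ofFn]
    exact List.prod_ofFn
  have hU2 : U.map Prod.snd = List.ofFn u := by
    simp only [U, List.map_ofFn]
    rfl
  have hw : (wedge (U.map Prod.snd) : ExteriorAlgebra Ω D.H) = extProd u := by
    rw [hU2]
    exact ofFn_wedge u
  have hT' : TC.IsTate D 2 (wedge (U.map Prod.snd) : ExteriorAlgebra Ω D.H) := by
    refine ⟨?_, s, hs, ?_⟩
    · have h2 := wedge_mem (R := Ω) (U.map Prod.snd)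
      have h3 : (U.map Prod.snd).length = 2 * 2 := by
        rw [hU2, List.length_ofFn]
      rwa [h3] at h2
    · have e1 : ExteriorAlgebra.map ((D.F : D.H →ₗ[Ω] D.H) ^ s)
          (wedge (U.map Prod.snd)) = (U.map Prod.fst).prod ^ s • wedge (R := Ω) (U.map Prod.snd) :=
        map_pow_wedge_eigen _ U hU s
      have e2 : (U.map Prod.fst).prod ^ s = (p : Ω) ^ (D.m * 2 * s) := by
        rw [hU1, hDm, ← Finset.prod_pow]
        exact hprod
      exact e1.trans (congrArg (fun t => t • _) e2)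
  have h3 := h D _ (by rw [hw]; exact hsplit) hT'
  have h4 := S.pull_mem A D f hf _ h3
  have h5 : TC.pull A D f (wedge (U.map Prod.snd) : ExteriorAlgebra Ω D.H) =
      (ExteriorAlgebra.ιMulti Ω (2 * 2) v : ExteriorAlgebra Ω A.H) := by
    refine (map_wedge f (U.map Prod.snd)).trans ?_
    rw [hU2, List.map_ofFn, ← ofFn_wedge]
    congr 2
    funext i
    exact hfu i
  rw [h5] at h4
  exact h4

end Pool.Agent.V8H94.TS
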